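import Pool.Agent.Q100.SeqCl

/-!
# Absolutely continuous measures stay in the same iterated sequential closure

The definitions are in `Pool/Agent/Q100/SeqDefs.lean`.
-/

set_option autoImplicit false

namespace Pool.Agent.Results.MP_1e6c42_an.AbsContSeq

open Q100.SeqCl

universe u v

/-- Affirmative answer to Q1: if `μ ∈ Seq^α(co Δ_K)` and `ν ≪ μ` then `ν ∈ Seq^α(lin Δ_K)`, for
every compact space `K` and every ordinal `α`. -/
theorem result : ∀ (K : Type u) [TopologicalSpace K] [CompactSpace K] [T2Space K]
    [MeasurableSpace K] [BorelSpace K] (α : Ordinal.{v}) (μ ν : MK K),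
    μ ∈ SeqIter (coDelta K) α → AbsCont ν μ → ν ∈ SeqIter (linDelta K) α := by
  intro K _ _ _ _ _ α μ ν hμ h
  exact main_approx α μ hμ ν (approx_of_absCont h)

end Pool.Agent.Results.MP_1e6c42_an.AbsContSeq
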